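import Pool.Graph.R_pool_sql_team_seeded_843ab51a.V11106.SH.AH

/-!
# Representations of finite groups in the Hodge classes modulo absolute Hodge classes: definitions
-/

open CategoryTheory AlgebraicGeometry

universe u v w x

namespace Pool.Agent.Helper56.HodgeUniv

open Pool.Agent.H914 VarClass Obj WeilCohomology Pool.Agent.V11106.SH

section Alg

variable {K A B C E Δ : Type*} [Field K] [Ring A] [Algebra K A] [Ring B] [Algebra K B]
  [Ring C] [Algebra K C] [AddCommGroup E] [Module K E]

/-- The linear map `φ` has values in `M`, it is equivariant for the representation `ρ` of `Δ` and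
the endomorphisms `g d` (so `φ (ρ d e) = g d⁻¹ (φ e)`: the group acts on the algebra `A` by the
inverses of the pull-backs), and its composition with the projection to `M` modulo `N` is
injective. -/
def Embeds [Group Δ] (ρ : Representation K Δ E) (g : Δ → (A →ₐ[K] A)) (M N : Submodule K A)
    (φ : E →ₗ[K] A) : Prop :=
  (∀ e, φ e ∈ M) ∧ (∀ d e, φ (ρ d e) = g d⁻¹ (φ e)) ∧ ∀ e, φ e ∈ N → e = 0

/-- The linear map `f` sends `1` to `κ`. -/
def OneTo (f : A →ₗ[K] B) (κ : ℚ) : Prop := f 1 = algebraMap K B (κ : K)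

/-- The linear map `f` sends `1` to `c` times the `n`-th power of `p(x) + q(x)`. -/
def OneToPower (f : A →ₗ[K] C) (p q : B →ₐ[K] C) (x : B) (n : ℕ) (c : ℚ) : Prop :=
  f 1 = (c : K) • (p x + q x) ^ n

end Alg

variable {k : Type u} [Field k] {𝒱 : VarClass k} {ops : CycleOps 𝒱}

/-- The group `Δ` acts on the variety `X` from the left, by the morphisms `σ d`. -/
structure IsAction (X : 𝒱.Obj) {Δ : Type} [Group Δ] (σ : Δ → (X ⟶ X)) : Prop where
  one : σ 1 = 𝟙 X
  mul : ∀ d e : Δ, σ (d * e) = σ e ≫ σ d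

/-- The push-forward of `[X]` under `f : X ⟶ Y` is `κ` times `[Y]`. -/
def HasDegree (V : WeilCohomology.{u, v} ops) {X Y : 𝒱.Obj} (f : X ⟶ Y) (κ : ℚ) : Prop :=
  OneTo (V.push f) κ

/-- The push-forward of `[X]` under `(f, g) : X ⟶ S × S` is `c (D × S + S × D) ^ n`. -/
def HasClass (V : WeilCohomology.{u, v} ops) {X S : 𝒱.Obj} (f g : X ⟶ S) (D : S.Cycles) (n : ℕ)
    (c : ℚ) : Prop :=
  OneToPower (V.push (Obj.lift f g)) (V.map (fst S S)) (V.map (snd S S)) (V.cl S D) n c

/-- The morphism `q : X ⟶ Y` is invariant under the action `σ` of `Δ` on `X` and of degree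
`κ ≠ 0`; so it is generically finite and surjective. -/
structure IsInvariantCover (V : WeilCohomology.{u, v} ops) {X Y : 𝒱.Obj} {Δ : Type}
    (σ : Δ → (X ⟶ X)) (q : X ⟶ Y) (κ : ℚ) : Prop where
  comp : ∀ d : Δ, σ d ≫ q = q
  ne_zero : κ ≠ 0
  degree : HasDegree V q κ

/-- The representation `ρ` of `Δ` is isomorphic to a subrepresentation of the space `M` of
cohomology classes of `X`, where `Δ` acts by `σ`, which meets `N` in zero. -/
def Occurs (V : WeilCohomology.{u, v} ops) {X : 𝒱.Obj} (M N : Submodule V.K (V.H X))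
    {Δ : Type} [Group Δ] (σ : Δ → (X ⟶ X)) {E : Type v} [AddCommGroup E] [Module V.K E]
    (ρ : Representation V.K Δ E) : Prop :=
  ∃ φ : E →ₗ[V.K] V.H X, Embeds ρ (fun d => V.map (σ d)) M N φ

/-- Let `M X` and `N X` be subspaces of the cohomology of `X`. The representation `ρ` of `Δ` occurs
above the variety `Y` in dimension `n` in `M` modulo `N`: there are a variety `X` of dimension `n`,
an action of `Δ` on `X`, a `Δ`-invariant morphism `q : X ⟶ Y` of degree `κ ≠ 0`, and a
`Δ`-equivariant linear map `φ` from the space `E` of `ρ` to `M X` whose composition with the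
projection to `M X` modulo `N X` is injective. -/
def OccursAbove (V : WeilCohomology.{u, v} ops) (M N : ∀ X : 𝒱.Obj, Submodule V.K (V.H X))
    (Y : 𝒱.Obj) (n : ℕ) {Δ : Type} [Group Δ] {E : Type v} [AddCommGroup E] [Module V.K E]
    (ρ : Representation V.K Δ E) : Prop :=
  ∃ (X : 𝒱.Obj) (σ : Δ → (X ⟶ X)) (q : X ⟶ Y) (κ : ℚ),
    X.dim = n ∧ IsAction X σ ∧ IsInvariantCover V σ q κ ∧ Occurs V (M X) (N X) σ ρ

/-- Some finite-dimensional representation of the finite group `Δ` does not occur above `Y` in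
dimension `n` in `M` modulo `N`. -/
def OmitsOf (V : WeilCohomology.{u, v} ops) (M N : ∀ X : 𝒱.Obj, Submodule V.K (V.H X))
    (Y : 𝒱.Obj) (n : ℕ) (Δ : Type) [Group Δ] : Prop :=
  ∃ (E : Type v) (_ : AddCommGroup E) (_ : Module V.K E) (_ : Module.Finite V.K E)
    (ρ : Representation V.K Δ E), ¬ OccursAbove V M N Y n ρ

/-- Some finite-dimensional representation of some finite group does not occur above `Y` in
dimension `n` in `M` modulo `N`. -/
def OmitsAbove (V : WeilCohomology.{u, v} ops) (M N : ∀ X : 𝒱.Obj, Submodule V.K (V.H X))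
    (Y : 𝒱.Obj) (n : ℕ) : Prop :=
  ∃ (Δ : Type) (_ : Group Δ) (_ : Finite Δ), OmitsOf V M N Y n Δ

/-- The morphisms `p m d : X ⟶ S` have the same degree `κ ≠ 0`, and there is a divisor `D` on `S`
such that for different `(m, d)` and `(m', d')` the class `(p m d, p m' d')_* [X]` on `S × S` is a
rational multiple of `(D × S + S × D) ^ n`. -/
def ArePairwise (V : WeilCohomology.{u, v} ops) (n : ℕ) {X S : 𝒱.Obj} {Δ : Type} {M : ℕ}
    (p : Fin M → Δ → (X ⟶ S)) : Prop :=
  ∃ (D : S.Cycles) (c κ : ℚ), S.IsCyc 1 D ∧ κ ≠ 0 ∧ (∀ m d, HasDegree V (p m d) κ) ∧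
    ∀ m d m' d', (m, d) ≠ (m', d') → HasClass V (p m d) (p m' d') D n c

/-- Let `S` and `Y` be varieties of dimension `n` and `Δ` a finite group. There are a variety `X` of
dimension `n` with an action of `Δ`, a `Δ`-invariant morphism `q : X ⟶ Y` of degree `κ ≠ 0`, and
morphisms `p m d : X ⟶ S`, `m < M`, `d ∈ Δ`, as above, such that the composition of the action of
`e` on `X` and of `p m d` is `p m (d * e)`. (`X` is a `Δ`-invariant complete intersection in
`S^{M × Δ} × Y`.) -/
def HasInvariantIntersection (V : WeilCohomology.{u, v} ops) (n : ℕ) (Y S : 𝒱.Obj) (Δ : Type)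
    [Group Δ] (M : ℕ) : Prop :=
  ∃ (X : 𝒱.Obj) (p : Fin M → Δ → (X ⟶ S)) (σ : Δ → (X ⟶ X)) (q : X ⟶ Y) (κ : ℚ),
    X.dim = n ∧ ArePairwise V n p ∧ IsAction X σ ∧ (∀ e m d, σ e ≫ p m d = p m (d * e)) ∧
    IsInvariantCover V σ q κ

/-- All the complete intersections above exist. (True for the Betti cohomology of smooth projective
complex varieties, for every `n`, by the theorem of Bertini.) -/
def HasInvariantIntersections (V : WeilCohomology.{u, v} ops) (n : ℕ) : Prop :=
  ∀ (Y S : 𝒱.Obj) (Δ : Type) [Group Δ] [Finite Δ] (M : ℕ), Y.dim = n → S.dim = n →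
    HasInvariantIntersection V n Y S Δ M

end Pool.Agent.Helper56.HodgeUniv
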