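import Pool.Agent.Helper56.HodgeUniv.Defs

/-!
# Representations of finite groups in the Hodge classes modulo absolute Hodge classes
-/

open CategoryTheory AlgebraicGeometry

universe u v w x

namespace Pool.Agent.Helper56.HodgeUniv

open Pool.Agent.H914 VarClass Obj WeilCohomology Pool.Agent.V11106.SH

variable {k : Type u} [Field k] {𝒱 : VarClass k} {ops : CycleOps 𝒱}

section cohomology

variable {V : WeilCohomology.{u, v} ops} {S X : 𝒱.Obj} {n r : ℕ}

lemma push_pull {p : X ⟶ S} {κ : ℚ} (h : HasDegree V p κ) (t : V.H S) :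
    V.push p (V.map p t) = (κ : V.K) • t := by
  have h1 := V.push_mul p 1 t
  have h2 : V.push p 1 = algebraMap V.K (V.H S) (κ : V.K) := h
  rw [one_mul] at h1
  rw [h1, h2, Algebra.smul_def]

/-- Powers of the class of a divisor are combinations of classes of cycles. -/
lemma pow_mem_span {D : S.Cycles} (hD : S.IsCyc 1 D) (j : ℕ) :
    V.cl S D ^ j ∈ spanCycles V S (j : ℤ) := by
  have h : ∃ z : S.Cycles, S.IsCyc j z ∧ V.cl S z = V.cl S D ^ j := by
    induction j with
    | zero =>
      refine ⟨S.V.fundCycle, ?_, ?_⟩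
      · exact SmVar.fundCycle_mem _
      · rw [V.cl_fund, pow_zero]
    | succ j ih =>
      obtain ⟨z, hz, hz'⟩ := ih
      exact ⟨ops.mul z D, ops.mul_mem hz hD, by rw [V.cl_mul, hz', pow_succ]⟩
  obtain ⟨z, hz, hz'⟩ := h
  exact Submodule.subset_span ⟨j, rfl, z, hz, hz'⟩

/-- For different projections `p' _* p ^*` maps everything to algebraic classes. -/
lemma push_pull_ne {p p' : X ⟶ S} (hS : S.dim = n) {D : S.Cycles} (hD : S.IsCyc 1 D) {c : ℚ}
    (h' : HasClass V p p' D n c)
    {t : V.H S} (ht : t ∈ V.gr S (2 * r)) :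
    V.push p' (V.map p t) ∈ spanCycles V S (r : ℤ) := by
  have h : V.push (Obj.lift p p') 1 =
      (c : V.K) • (V.map (fst S S) (V.cl S D) + V.map (snd S S) (V.cl S D)) ^ n := h'
  have e1 : V.push p' (V.map p t) =
      V.push (snd S S) (V.push (Obj.lift p p') 1 * V.map (fst S S) t) := by
    rw [← V.push_mul, one_mul, ← V.map_comp, ← V.push_comp, Obj.lift_fst, Obj.lift_snd]
  have hcomm : Commute (V.map (fst S S) (V.cl S D)) (V.map (snd S S) (V.cl S D)) :=
    V.even_comm (p := 1) (V.map_mem _ (V.cl_mem hD)) _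
  rw [e1, h, smul_mul_assoc, map_smul, hcomm.add_pow, Finset.sum_mul, map_sum]
  refine Submodule.smul_mem _ _ (Submodule.sum_mem _ fun j hj => ?_)
  have hj' : j ≤ n := by
    have := Finset.mem_range.1 hj
    omega
  have e2 : V.map (fst S S) (V.cl S D) ^ j * V.map (snd S S) (V.cl S D) ^ (n - j) *
      ((n.choose j : ℕ) : V.H (S.prod S)) * V.map (fst S S) t =
      ((n.choose j : ℕ) : V.K) • (V.map (fst S S) (V.cl S D ^ j * t) *
        V.map (snd S S) (V.cl S D ^ (n - j))) := by
    have hc : V.map (snd S S) (V.cl S D) ^ (n - j) * V.map (fst S S) t =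
        V.map (fst S S) t * V.map (snd S S) (V.cl S D) ^ (n - j) := by
      have hev : Commute (V.map (snd S S) (V.cl S D)) (V.map (fst S S) t) :=
        V.even_comm (p := 1) (V.map_mem _ (V.cl_mem hD)) _
      exact hev.pow_left (n - j)
    have hn : ((n.choose j : ℕ) : V.H (S.prod S)) * V.map (fst S S) t =
        ((n.choose j : ℕ) : V.K) • V.map (fst S S) t := by
      rw [← nsmul_eq_mul, Nat.cast_smul_eq_nsmul]
    rw [mul_assoc _ (((n.choose j : ℕ) : V.H (S.prod S))), hn, mul_smul_comm, mul_assoc, hc,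
      map_mul, map_pow, map_pow, mul_assoc]
  rw [e2, map_smul, V.push_snd]
  refine Submodule.smul_mem _ _ ?_
  by_cases hjr : j + r = n
  · refine Submodule.smul_mem _ _ ?_
    obtain rfl : r = n - j := by omega
    exact pow_mem_span (V := V) hD (n - j)
  · have hz : V.tr S (V.cl S D ^ j * t) = 0 := by
      have hmem : V.cl S D ^ j * t ∈ V.gr S (2 * (j + r)) := by
        have h1 : V.cl S D ^ j ∈ V.gr S (2 * j) := by
          have h2 := pow_mem_span (V := V) hD j
          refine (Submodule.span_le.2 ?_ : spanCycles V S (j : ℤ) ≤ V.gr S (2 * j)) h2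
          rintro _ ⟨i, hi, z, hz, rfl⟩
          obtain rfl : i = j := by exact_mod_cast hi
          exact V.cl_mem hz
        have h3 := V.mul_mem h1 ht
        rwa [← mul_add] at h3
      exact V.tr_eq_zero hmem (by omega)
    rw [hz, zero_smul]
    exact Submodule.zero_mem _

end cohomology

/-- The formal properties of the pair `N ⊆ M`. -/
structure IsPair (V : WeilCohomology.{u, v} ops) (r : ℕ)
    (M N : ∀ X : 𝒱.Obj, Submodule V.K (V.H X)) : Prop where
  gr : ∀ X, M X ≤ V.gr X (2 * r)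
  alg : ∀ X, spanCycles V X (r : ℤ) ≤ N X
  pull : ∀ {X Y : 𝒱.Obj} (f : X ⟶ Y), ∀ a ∈ M Y, V.map f a ∈ M X
  push : ∀ {X Y : 𝒱.Obj} (f : X ⟶ Y), X.dim = Y.dim → ∀ a ∈ N X, V.push f a ∈ N Y

section main

variable {V : WeilCohomology.{u, v} ops} {r n : ℕ} {M N : ∀ X : 𝒱.Obj, Submodule V.K (V.H X)}
  {E : Type v} [AddCommGroup E] [Module V.K E]

/-- If `M` and `N` differ, then all representations occur. -/
theorem occurs_of_not (h : IsPair V r M N) (hP : HasInvariantIntersections V n)
    {Y : 𝒱.Obj} (hY : Y.dim = n) (hne : ¬ ∀ X : 𝒱.Obj, X.dim = n → M X ≤ N X)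
    {Δ : Type} [Group Δ] [Finite Δ] [Module.Finite V.K E] (ρ : Representation V.K Δ E) :
    OccursAbove V M N Y n ρ := by
  classical
  have hex : ∃ (S : 𝒱.Obj) (t : V.H S), S.dim = n ∧ t ∈ M S ∧ t ∉ N S := by
    by_contra hcon
    push Not at hcon
    exact hne fun X hX a ha => hcon X a hX ha
  obtain ⟨S, t, hS, ht, hnt⟩ := hex
  let b := Module.finBasis V.K E
  obtain ⟨X, p, σ, q, κ', e1, ⟨D, c, κ, e2, e3, e4, e5⟩, e6, e7, e8⟩ :=
    hP Y S Δ (Module.finrank V.K E) hY hS
  have hfd : Fintype Δ := Fintype.ofFinite _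
  let ι := Fin (Module.finrank V.K E) × Δ
  let w : ι → V.H X := fun i => V.map (p i.1 i.2) t
  have hwM : ∀ i, w i ∈ M X := fun i => h.pull _ _ ht
  let φ : E →ₗ[V.K] V.H X := ∑ i : ι, ((b.coord i.1).comp (ρ i.2)).smulRight (w i)
  have hφ : ∀ z, φ z = ∑ i : ι, (b.coord i.1 (ρ i.2 z)) • w i := by
    intro z
    simp [φ, LinearMap.sum_apply]
  have hw : ∀ (e : Δ) (i : ι), V.map (σ e⁻¹) (w i) = w (i.1, i.2 * e⁻¹) := by
    intro e i
    have h2 := V.map_comp (σ e⁻¹) (p i.1 i.2) t
    rw [e7] at h2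
    exact h2.symm
  refine ⟨X, σ, q, κ', e1, e6, e8, φ, ?_, ?_, ?_⟩
  · intro z
    rw [hφ]
    exact Submodule.sum_mem _ fun i _ => Submodule.smul_mem _ _ (hwM i)
  · intro e z
    change φ (ρ e z) = V.map (σ e⁻¹) (φ z)
    rw [hφ z, map_sum]
    have h1 : ∀ i : ι, V.map (σ e⁻¹) ((b.coord i.1 (ρ i.2 z)) • w i) =
        (b.coord i.1 (ρ i.2 z)) • w (i.1, i.2 * e⁻¹) := by
      intro i
      rw [map_smul, hw]
    rw [Finset.sum_congr rfl fun i _ => h1 i, hφ]
    let f : ι ≃ ι := (Equiv.refl _).prodCongr (Equiv.mulRight e⁻¹)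
    have hf : ∀ i, f i = (i.1, i.2 * e⁻¹) := fun i => rfl
    rw [← Equiv.sum_comp f]
    refine Finset.sum_congr rfl fun i _ => ?_
    rw [hf i]
    have h3 : ρ (i.2 * e⁻¹) (ρ e z) = ρ i.2 z := by
      have h4 := congrArg (fun g : E →ₗ[V.K] E => g z) (map_mul ρ (i.2 * e⁻¹) e)
      rw [inv_mul_cancel_right] at h4
      exact h4.symm
    exact congrArg (fun y => b.coord i.1 y • w (i.1, i.2 * e⁻¹)) h3
  · intro z hz
    have key : ∀ m, b.coord m z = 0 := by
      intro m
      by_contra hcon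
      let i₀ : ι := (m, 1)
      have h1 := h.push (p i₀.1 i₀.2) (e1.trans hS.symm) _ hz
      rw [hφ, map_sum, ← Finset.add_sum_erase _ _ (Finset.mem_univ i₀)] at h1
      have h2 : (∑ i ∈ Finset.univ.erase i₀, V.push (p i₀.1 i₀.2)
          ((b.coord i.1 (ρ i.2 z)) • w i)) ∈ N S := by
        refine Submodule.sum_mem _ fun i hi => ?_
        rw [map_smul]
        refine Submodule.smul_mem _ _ (h.alg S ?_)
        have hne' : (i.1, i.2) ≠ (i₀.1, i₀.2) := (Finset.mem_erase.1 hi).1
        exact push_pull_ne hS e2 (e5 _ _ _ _ hne') (h.gr S ht)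
      have h3 := (Submodule.add_mem_iff_left _ h2).1 h1
      rw [map_smul] at h3
      have h5 : b.coord i₀.1 (ρ i₀.2 z) = b.coord m z := by
        have h6 : ρ (1 : Δ) z = z := congrArg (fun g : E →ₗ[V.K] E => g z) (map_one ρ)
        exact congrArg (b.coord m) h6
      rw [h5] at h3
      have h4 := (Submodule.smul_mem_iff _ hcon).1 h3
      have h7 : V.push (p i₀.1 i₀.2) (w i₀) = (κ : V.K) • t := push_pull (e4 _ _) t
      rw [h7] at h4
      have hκ : (κ : V.K) ≠ 0 := by exact_mod_cast e3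
      exact hnt ((Submodule.smul_mem_iff _ hκ).1 h4)
    exact b.ext_elem fun m => by
      have := key m
      rw [b.coord_apply] at this
      rw [this, map_zero]
      rfl

/-- If `M = N` then the trivial representation does not occur. -/
theorem not_occurs (h : ∀ X : 𝒱.Obj, X.dim = n → M X ≤ N X) (Y : 𝒱.Obj) :
    ¬ OccursAbove V M N Y n (Representation.trivial V.K Unit V.K) := by
  rintro ⟨X, σ, q, κ, h1, h2, h3, φ, h4, h5, h6⟩
  exact one_ne_zero (h6 1 (h X h1 (h4 1)))

theorem pair_iff (h : IsPair V r M N) (hP : HasInvariantIntersections V n)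
    {Y : 𝒱.Obj} (hY : Y.dim = n) :
    (∀ X : 𝒱.Obj, X.dim = n → M X ≤ N X) ↔ OmitsAbove V M N Y n := by
  constructor
  · intro h
    exact ⟨Unit, inferInstance, inferInstance, V.K, inferInstance, inferInstance, inferInstance,
      Representation.trivial V.K Unit V.K, not_occurs h Y⟩
  · rintro ⟨Δ, _, _, E, _, _, _, ρ, hno⟩
    by_contra hne
    exact hno (occurs_of_not h hP hY hne ρ)

end main

section hodge

variable {I : Type w} {W : I → WeilCohomology.{u, v} ops}

lemma abs_push (Φ : HodgeFamily.{u, v, w, x} W) (s : I) {X Y : 𝒱.Obj} (f : X ⟶ Y)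
    (hd : X.dim = Y.dim) {r : ℕ} {a : (W s).H X} (ha : a ∈ absHodge Φ s X r) :
    (W s).push f a ∈ absHodge Φ s Y r := by
  induction ha using Submodule.span_induction with
  | mem a ha =>
    refine Submodule.subset_span ⟨(Φ.hodge s).push f r r (by rw [hd]) _ ha.1, fun t => ?_⟩
    obtain ⟨b, hb, hbc⟩ := ha.2 t
    refine ⟨(W t).push f b, (Φ.hodge t).push f r r (by rw [hd]) _ hb, ?_⟩
    have h1 := (Φ.realization t).push f r r (by rw [hd]) b (((Φ.hodge t).like X).1 r hb)
    have h2 := (Φ.realization s).push f r r (by rw [hd]) a (((Φ.hodge s).like X).1 r ha.1)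
    rw [h1, h2, hbc]
  | zero => rw [map_zero]; exact Submodule.zero_mem _
  | add a b _ _ ha hb => rw [map_add]; exact Submodule.add_mem _ ha hb
  | smul c a _ ha => rw [map_smul]; exact Submodule.smul_mem _ _ ha

lemma abs_map (Φ : HodgeFamily.{u, v, w, x} W) (s : I) {X Y : 𝒱.Obj} (f : X ⟶ Y)
    {r : ℕ} {a : (W s).H Y} (ha : a ∈ absHodge Φ s Y r) :
    (W s).map f a ∈ absHodge Φ s X r := by
  induction ha using Submodule.span_induction with
  | mem a ha =>
    refine Submodule.subset_span ⟨(Φ.hodge s).map f r r rfl _ ha.1, fun t => ?_⟩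
    obtain ⟨b, hb, hbc⟩ := ha.2 t
    refine ⟨(W t).map f b, (Φ.hodge t).map f r r rfl _ hb, ?_⟩
    have h1 := (Φ.realization t).map f r r rfl b (((Φ.hodge t).like Y).1 r hb)
    have h2 := (Φ.realization s).map f r r rfl a (((Φ.hodge s).like Y).1 r ha.1)
    rw [h1, h2, hbc]
  | zero => rw [map_zero]; exact Submodule.zero_mem _
  | add a b _ _ ha hb => rw [map_add]; exact Submodule.add_mem _ ha hb
  | smul c a _ ha => rw [map_smul]; exact Submodule.smul_mem _ _ ha

lemma span_push {V : WeilCohomology.{u, v} ops} {X Y : 𝒱.Obj} (f : X ⟶ Y)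
    (hd : X.dim = Y.dim) {r : ℕ} {a : V.H X} (ha : a ∈ spanCycles V X (r : ℤ)) :
    V.push f a ∈ spanCycles V Y (r : ℤ) := by
  induction ha using Submodule.span_induction with
  | mem a ha =>
    obtain ⟨i, hi, z, hz, rfl⟩ := ha
    exact Submodule.subset_span ⟨i, hi, ops.push f z, ops.push_mem f hz (by rw [hd]), V.cl_push f z⟩
  | zero => rw [map_zero]; exact Submodule.zero_mem _
  | add a b _ _ ha hb => rw [map_add]; exact Submodule.add_mem _ ha hb
  | smul c a _ ha => rw [map_smul]; exact Submodule.smul_mem _ _ ha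

/-- Hodge classes and absolute Hodge classes. -/
lemma pair_hodge (Φ : HodgeFamily.{u, v, w, x} W) (s : I) (r : ℕ) :
    IsPair (W s) r (fun X => Φ.hdg s X r) (fun X => absHodge Φ s X r) where
  gr X := ((Φ.hodge s).like X).1 r
  alg X := alg_le_abs Φ s X r
  pull f a ha := (Φ.hodge s).map f r r rfl a ha
  push f hd _ ha := abs_push Φ s f hd ha

/-- Absolute Hodge classes and algebraic classes. -/
lemma pair_abs (Φ : HodgeFamily.{u, v, w, x} W) (s : I) (r : ℕ) :
    IsPair (W s) r (fun X => absHodge Φ s X r) (fun X => spanCycles (W s) X (r : ℤ)) where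
  gr X := (abs_le Φ s X r).trans (((Φ.hodge s).like X).1 r)
  alg _ := le_rfl
  pull f _ ha := abs_map Φ s f ha
  push f hd _ ha := span_push f hd ha

end hodge

end Pool.Agent.Helper56.HodgeUniv
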